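import Mathlib

set_option autoImplicit false

namespace Pool.Agent.Results.MP_671186_gt.Shells

open Set Filter Topology Real

theorem result (d : ℕ) : ∃ P : Set (Set (Fin d → ℝ)), Setoid.IsPartition P ∧ P.Countable ∧
    (∀ X ∈ P, ∀ x ∈ X, ∀ y ∈ X, dist x y < 1) ∧ ∀ p, {X ∈ P | p ∈ closure X}.encard ≤ 2 := by
  classical
  obtain ⟨J, hJ⟩ : ∃ J : (Fin d → ℝ) → Finset (Fin d), ∀ x i, i ∈ J x ↔ sin (π * x i) ≠ 0 :=
    ⟨fun x => Finset.univ.filter fun i => sin (π * x i) ≠ 0, by simp⟩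
  obtain ⟨δ, δc, δ0, δ1⟩ : ∃ δ : Finset (Fin d) → (Fin d → ℝ) → ℝ, (∀ s, Continuous (δ s)) ∧
      (∀ x, 0 < δ (J x) x) ∧ ∀ s x, 0 < δ s x → ∀ i ∈ s, i ∈ J x :=
    ⟨fun s x => ∏ i ∈ s, sin (π * x i) ^ 2, fun s => by fun_prop, fun x =>
      Finset.prod_pos fun i hi => sq_pos_of_ne_zero ((hJ x i).1 hi), fun s x h i hi =>
        (hJ x i).2 fun c => h.ne' (Finset.prod_eq_zero hi (by rw [c]; simp))⟩
  have z {t : ℝ} : sin (π * t) = 0 ↔ (⌊t⌋ : ℝ) = t := by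
    rw [sin_eq_zero_iff]
    refine ⟨fun ⟨n, h⟩ => ?_, fun h => ⟨_, by rw [h, mul_comm]⟩⟩
    rw [← mul_left_cancel₀ pi_ne_zero ((mul_comm _ _).trans h), Int.floor_intCast]
  obtain ⟨l, hl⟩ : ∃ l : (Fin d → ℝ) → (Fin d → ℤ) × Finset (Fin d) × ℤ, ∀ x, l x =
    (fun i => ⌊x i⌋, J x, ⌊(δ (J x) x)⁻¹⌋) := ⟨_, fun _ => rfl⟩
  have a (x y) (hx : l x = l y) : (∀ i, ⌊x i⌋ = ⌊y i⌋) ∧ J x = J y ∧
      ⌊(δ (J y) x)⁻¹⌋ = ⌊(δ (J y) y)⁻¹⌋ := by
    simp only [hl, Prod.mk.injEq] at hx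
    exact ⟨congrFun hx.1, hx.2.1, by rw [← hx.2.2, hx.2.1]⟩
  refine ⟨(Setoid.ker l).classes, Setoid.isPartition_classes _,
    (countable_range fun a => l ⁻¹' {a}).mono ?_, ?_, fun p => ?_⟩
  · rintro _ ⟨y, rfl⟩
    exact ⟨l y, rfl⟩
  · rintro _ ⟨w, rfl⟩ x hx y hy
    exact (dist_pi_lt_iff one_pos).2 fun i =>
      Int.abs_sub_lt_one_of_floor_eq_floor (((a x w hx).1 i).trans ((a y w hy).1 i).symm)
  obtain ⟨m, hm⟩ : ∃ m, m = ⌊(δ (J p) p)⁻¹⌋ := ⟨_, rfl⟩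
  refine (encard_le_encard (t := {l ⁻¹' {(fun i => ⌊p i⌋, J p, m - 1)},
    l ⁻¹' {(fun i => ⌊p i⌋, J p, m)}}) ?_).trans ((encard_insert_le _ _).trans
      (by rw [encard_singleton]; rfl))
  rintro _ ⟨⟨y, rfl⟩, hp⟩
  have b : ((⌊(δ (J y) y)⁻¹⌋ : ℝ) + 1)⁻¹ ≤ δ (J y) p :=
    closure_minimal (t := {x | _ ≤ δ (J y) x}) (fun x hx => by
      have := Int.lt_floor_add_one (δ (J y) x)⁻¹
      rw [(a x y hx).2.2] at this
      exact (inv_lt_of_inv_lt₀ (by rw [← (a x y hx).2.1]; exact δ0 x) this).le)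
      (isClosed_le continuous_const (δc _)) hp
  have b' : 0 < δ (J y) p := lt_of_lt_of_le (inv_pos.2 ((inv_pos.2 (δ0 y)).trans
    (Int.lt_floor_add_one _))) b
  have n (x) (hx : l x = l y) (i) (c : i ∉ J y) : sin (π * x i) = 0 := by
    rwa [← (a x y hx).2.1, hJ, not_not] at c
  have e : J p = J y := Finset.ext fun i => ⟨fun h => by_contra fun c => by
    have cl : IsClosed {x : Fin d → ℝ | sin (π * x i) = 0} :=
      isClosed_eq (by fun_prop) continuous_const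
    have := closure_minimal (fun x hx => n x hx i c) cl hp
    exact (hJ p i).1 h this, δ1 _ _ b' i⟩
  have f (i) : ⌊p i⌋ = ⌊y i⌋ := by
    have ci : Continuous fun x : Fin d → ℝ => x i := continuous_apply i
    have h1 := closure_minimal (fun x hx => show (⌊y i⌋ : ℝ) ≤ x i by
      rw [← (a x y hx).1 i]; exact Int.floor_le _) (isClosed_le continuous_const ci) hp
    by_cases c : i ∈ J y
    · have h2 := closure_minimal (fun x hx => show x i ≤ (⌊y i⌋ : ℝ) + 1 by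
        rw [← (a x y hx).1 i]; exact (Int.lt_floor_add_one _).le)
        (isClosed_le ci continuous_const) hp
      refine Int.floor_eq_iff.2 ⟨h1, lt_of_le_of_ne h2 fun k => (hJ p i).1 (e ▸ c) ?_⟩
      rw [z, k, Int.floor_add_one, Int.floor_intCast]
      push_cast
      rfl
    · have h2 := closure_minimal (fun x hx => show x i = (⌊y i⌋ : ℝ) by
        rw [← (a x y hx).1 i]; exact (z.1 (n x hx i c)).symm) (isClosed_eq ci continuous_const) hp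
      rw [show p i = _ from h2, Int.floor_intCast]
  have g : ∀ᶠ x in 𝓝 p, (δ (J y) x)⁻¹ ∈ Ioo ((m : ℝ) - 1) (m + 1) :=
    ((δc _).continuousAt.inv₀ b'.ne').eventually (Ioo_mem_nhds
      (by rw [hm, e]; exact (sub_one_lt _).trans_le (Int.floor_le _))
      (by rw [hm, e]; exact Int.lt_floor_add_one _))
  obtain ⟨x, x1, x2⟩ := mem_closure_iff_nhds.1 hp _ g
  have k1 : m - 1 ≤ ⌊(δ (J y) x)⁻¹⌋ := Int.le_floor.2 (by push_cast; exact x1.1.le)
  have k2 : ⌊(δ (J y) x)⁻¹⌋ < m + 1 := Int.floor_lt.2 (by push_cast; exact x1.2)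
  rw [(a x y x2).2.2] at k1 k2
  have : l y = (fun i => ⌊p i⌋, J p, m - 1) ∨ l y = (fun i => ⌊p i⌋, J p, m) := by
    simp only [hl, f, e, Prod.mk.injEq, true_and]
    omega
  rcases this with h | h <;> rw [← h]
  exacts [.inl rfl, .inr rfl]

end Pool.Agent.Results.MP_671186_gt.Shells
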